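import Pool.Agent.H.MP_221c76_co.Defs

set_option autoImplicit false

namespace Pool.Agent.H.MP_221c76_co

open Finset Classical

noncomputable def vs (G : MG) (Y : Finset G.E) : Finset G.V :=
  Y.biUnion (fun e => (G.ends e).toFinset)

theorem mem_vs {G : MG} {Y : Finset G.E} {x : G.V} : x ∈ vs G Y ↔ ∃ e ∈ Y, x ∈ G.ends e := by
  simp [vs]

noncomputable def ex (G : MG) (Y : Finset G.E) : ℤ := (Y.card : ℤ) - ((vs G Y).card : ℤ)

def Tight (G : MG) (Y : Finset G.E) : Prop := ∀ Z, Z ⊂ Y → ex G Z < ex G Y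

variable {G : MG}

theorem has_end (e : G.E) : ∃ x, x ∈ G.ends e := ⟨_, Sym2.out_fst_mem _⟩

theorem vs_mono {A B : Finset G.E} (h : A ⊆ B) : vs G A ⊆ vs G B := by
  intro x hx
  obtain ⟨e, he, hx⟩ := mem_vs.1 hx
  exact mem_vs.2 ⟨e, h he, hx⟩

theorem vs_union (A B : Finset G.E) : vs G (A ∪ B) = vs G A ∪ vs G B := by
  ext x
  simp only [mem_vs, mem_union]
  constructor
  · rintro ⟨e, h | h, hx⟩
    · exact Or.inl ⟨e, h, hx⟩
    · exact Or.inr ⟨e, h, hx⟩
  · rintro (⟨e, h, hx⟩ | ⟨e, h, hx⟩)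
    · exact ⟨e, Or.inl h, hx⟩
    · exact ⟨e, Or.inr h, hx⟩

theorem not_mem_of_disj {A B : Finset G.E} (h : Disjoint (vs G A) (vs G B)) {e : G.E}
    (ha : e ∈ A) (hb : e ∈ B) : False := by
  obtain ⟨x, hx⟩ := has_end e
  exact disjoint_left.1 h (mem_vs.2 ⟨e, ha, hx⟩) (mem_vs.2 ⟨e, hb, hx⟩)

theorem ex_empty : ex G ∅ = 0 := by simp [ex, vs]

theorem ex_union {A B : Finset G.E} (h : Disjoint (vs G A) (vs G B)) :
    ex G (A ∪ B) = ex G A + ex G B := by
  have h2 : Disjoint A B := disjoint_left.2 (fun e ha hb => not_mem_of_disj h ha hb)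
  simp only [ex, vs_union, card_union_of_disjoint h, card_union_of_disjoint h2]
  push_cast
  ring

theorem ex_super (A B : Finset G.E) : ex G A + ex G B ≤ ex G (A ∪ B) + ex G (A ∩ B) := by
  have h1 := card_union_add_card_inter A B
  have h2 := card_union_add_card_inter (vs G A) (vs G B)
  have h3 : (vs G (A ∩ B)).card ≤ (vs G A ∩ vs G B).card :=
    card_le_card (subset_inter (vs_mono inter_subset_left) (vs_mono inter_subset_right))
  simp only [ex, vs_union]
  omega

theorem ex_erase (Y : Finset G.E) (e : G.E) : ex G Y - 1 ≤ ex G (Y.erase e) := by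
  have h1 := pred_card_le_card_erase (s := Y) (a := e)
  have h2 := card_le_card (vs_mono (erase_subset e Y))
  simp only [ex]
  omega

theorem Tight.le {Y Z : Finset G.E} (h : Tight G Y) (hz : Z ⊆ Y) : ex G Z ≤ ex G Y := by
  rcases hz.eq_or_ssubset with rfl | h2
  · exact le_rfl
  · exact (h Z h2).le

theorem Tight.eq {Y Z : Finset G.E} (h : Tight G Y) (hz : Z ⊆ Y) (he : ex G Y ≤ ex G Z) :
    Z = Y := by
  rcases hz.eq_or_ssubset with h2 | h2
  · exact h2
  · exact absurd (h Z h2) (not_lt.2 he)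

theorem Tight.union {A B : Finset G.E} (h : Disjoint (vs G A) (vs G B)) (ha : Tight G A)
    (hb : Tight G B) : Tight G (A ∪ B) := by
  intro Z hZ
  have e1 : Z = (Z ∩ A) ∪ (Z ∩ B) := by
    rw [← inter_union_distrib_left, inter_eq_left.2 hZ.subset]
  have e2 : ex G Z = ex G (Z ∩ A) + ex G (Z ∩ B) := by
    conv_lhs => rw [e1]
    exact ex_union (h.mono (vs_mono inter_subset_right) (vs_mono inter_subset_right))
  have l1 := ha.le (inter_subset_right (s₁ := Z))
  have l2 := hb.le (inter_subset_right (s₁ := Z))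
  rw [ex_union h]
  by_contra hc
  have a1 := ha.eq (inter_subset_right (s₁ := Z)) (by omega)
  have a2 := hb.eq (inter_subset_right (s₁ := Z)) (by omega)
  rw [a1, a2] at e1
  exact hZ.ne e1

theorem exists_tight (k : ℕ) (W : Finset G.E) (h : (k : ℤ) ≤ ex G W) :
    ∃ W' ⊆ W, Tight G W' ∧ ex G W' = k := by
  obtain ⟨W', hW', hmin⟩ := exists_min_image (W.powerset.filter (fun Z => (k : ℤ) ≤ ex G Z))
    card ⟨W, by simp [h]⟩
  rw [mem_filter, mem_powerset] at hW'
  have key : ∀ Z, Z ⊂ W' → ex G Z < k := by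
    intro Z hZ
    by_contra hc
    have := hmin Z (by
      rw [mem_filter, mem_powerset]
      exact ⟨hZ.subset.trans hW'.1, not_lt.1 hc⟩)
    have := card_lt_card hZ
    omega
  refine ⟨W', hW'.1, fun Z hZ => (key Z hZ).trans_le hW'.2, ?_⟩
  rcases W'.eq_empty_or_nonempty with rfl | ⟨e, he⟩
  · have := hW'.2
    rw [ex_empty] at this ⊢
    omega
  · have h1 := key _ (erase_ssubset he)
    have h2 := ex_erase W' e
    have := hW'.2
    omega

structure Dat (G : MG) (X : Set G.E) (L : ℕ) (T : ℕ → Finset G.E) : Prop where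
  disj : ∀ i j, i ≠ j → Disjoint (vs G (T i)) (vs G (T j))
  cover : ∀ e, e ∈ X ↔ ∃ i, e ∈ T i
  tight : ∀ i, Tight G (T i)
  ex0 : ex G (T 0) = L
  ex1 : ∀ i, ex G (T (i + 1)) = 1
  card1 : ∀ i, (T (i + 1)).card = L + i + 1

def Good (G : MG) (X : Set G.E) : Prop := ∃ L T, Dat G X L T

noncomputable def sh (T : ℕ → Finset G.E) : ℕ → Finset G.E
  | 0 => T 0 ∪ T 1
  | i + 1 => T (i + 2)

theorem Dat.step {X : Set G.E} {L : ℕ} {T : ℕ → Finset G.E} (h : Dat G X L T) :
    Dat G X (L + 1) (sh T) := by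
  have d0 : ∀ j, Disjoint (vs G (sh T 0)) (vs G (sh T (j + 1))) := by
    intro j
    simp only [sh, vs_union, disjoint_union_left]
    exact ⟨h.disj _ _ (by omega), h.disj _ _ (by omega)⟩
  refine ⟨?_, ?_, ?_, ?_, ?_, ?_⟩
  · intro i j hij
    rcases i with _ | i <;> rcases j with _ | j
    · exact absurd rfl hij
    · exact d0 j
    · exact (d0 i).symm
    · exact h.disj _ _ (by omega)
  · intro e
    rw [h.cover]
    constructor
    · rintro ⟨i, hi⟩
      rcases i with _ | _ | i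
      · exact ⟨0, mem_union_left _ hi⟩
      · exact ⟨0, mem_union_right _ hi⟩
      · exact ⟨i + 1, hi⟩
    · rintro ⟨i, hi⟩
      rcases i with _ | i
      · rcases mem_union.1 hi with h1 | h1
        · exact ⟨_, h1⟩
        · exact ⟨_, h1⟩
      · exact ⟨_, hi⟩
  · intro i
    rcases i with _ | i
    · exact Tight.union (h.disj _ _ (by omega)) (h.tight _) (h.tight _)
    · exact h.tight _
  · show ex G (T 0 ∪ T 1) = _
    rw [ex_union (h.disj _ _ (by omega)), h.ex0, h.ex1 0]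
    push_cast
    ring
  · intro i
    exact h.ex1 (i + 1)
  · intro i
    show (T (i + 1 + 1)).card = _
    rw [h.card1]
    ring

theorem Dat.absorb {X : Set G.E} {L : ℕ} {T : ℕ → Finset G.E} (h : Dat G X L T) (M : ℕ) :
    ∃ S, Dat G X (L + M) S ∧ (∀ i ≤ M, T i ⊆ S 0) ∧ ∀ i, S (i + 1) = T (M + i + 1) := by
  induction M with
  | zero => exact ⟨T, h, fun i hi => by rw [Nat.le_zero.1 hi], fun i => by simp⟩
  | succ M ih =>
    obtain ⟨S, hS, h1, h2⟩ := ih
    refine ⟨sh S, hS.step, fun i hi => ?_, fun i => ?_⟩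
    · rcases Nat.lt_or_ge M i with h3 | h3
      · have : i = M + 0 + 1 := by omega
        rw [this, ← h2 0]
        exact subset_union_right
      · exact (h1 i h3).trans subset_union_left
    · show S (i + 1 + 1) = _
      rw [h2]
      congr 1
      ring

theorem Dat.piece {X : Set G.E} {L : ℕ} {T : ℕ → Finset G.E} (h : Dat G X L T)
    {Y : Finset G.E} (hY : ∀ e ∈ Y, e ∈ X) (ht : Tight G Y) (h1 : ex G Y = 1) :
    ∃ j, Y ⊆ T j := by
  rcases Y.eq_empty_or_nonempty with rfl | ⟨e, he⟩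
  · exact ⟨0, empty_subset _⟩
  obtain ⟨j, hj⟩ := (h.cover e).1 (hY e he)
  refine ⟨j, ?_⟩
  by_contra hc
  have d : Disjoint (vs G (Y ∩ T j)) (vs G (Y \ T j)) := by
    rw [disjoint_left]
    intro x hx1 hx2
    obtain ⟨f, hf, hx⟩ := mem_vs.1 hx2
    rw [mem_sdiff] at hf
    obtain ⟨i, hi⟩ := (h.cover f).1 (hY f hf.1)
    have hij : j ≠ i := fun h3 => hf.2 (h3 ▸ hi)
    exact disjoint_left.1 (h.disj j i hij) (vs_mono inter_subset_right hx1) (mem_vs.2 ⟨f, hi, hx⟩)
  have e1 := ex_union d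
  rw [union_comm, sdiff_union_inter] at e1
  have a1 := ht (Y ∩ T j) (Finset.ssubset_iff_subset_ne.2 ⟨inter_subset_left, fun h3 =>
    hc (inter_eq_left.1 h3)⟩)
  have a2 := ht (Y \ T j) (Finset.ssubset_iff_subset_ne.2 ⟨sdiff_subset, fun h3 => by
    have : e ∈ Y \ T j := h3.symm ▸ he
    exact (mem_sdiff.1 this).2 hj⟩)
  omega

theorem good_eq {X X' : Set G.E} (h : Good G X) (h' : Good G X') (hs : X' ⊆ X) : X' = X := by
  obtain ⟨L, T, h⟩ := h
  obtain ⟨L', T', h'⟩ := h'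
  obtain ⟨S, hS, -, s2⟩ := h.absorb (L' + (T 0).card)
  obtain ⟨S', hS', -, s2'⟩ := h'.absorb (L + (T 0).card)
  have key : ∀ i, S' (i + 1) = S (i + 1) := by
    intro i
    rw [s2, s2']
    obtain ⟨j, hj⟩ := h.piece (Y := T' (L + (T 0).card + i + 1))
      (fun e he => hs ((h'.cover e).2 ⟨_, he⟩)) (h'.tight _) (h'.ex1 _)
    have c1 := h'.card1 (L + (T 0).card + i)
    rcases j with _ | j
    · have := card_le_card hj
      omega
    · have e1 := (h.tight _).eq hj (by rw [h.ex1, h'.ex1])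
      have c2 := h.card1 j
      rw [e1] at c1 ⊢
      congr 1
      omega
  have k0 : S' 0 = S 0 := by
    apply (hS.tight 0).eq
    · intro e he
      obtain ⟨j, hj⟩ := (hS.cover e).1 (hs ((hS'.cover e).2 ⟨0, he⟩))
      rcases j with _ | j
      · exact hj
      · rw [← key] at hj
        exact (not_mem_of_disj (hS'.disj 0 (j + 1) (by omega)) he hj).elim
    · rw [hS.ex0, hS'.ex0]
      push_cast
      omega
  ext e
  rw [hS.cover, hS'.cover]
  refine exists_congr (fun i => ?_)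
  rcases i with _ | i
  · rw [k0]
  · rw [key]

theorem Dat.far {X : Set G.E} {L : ℕ} {T : ℕ → Finset G.E} (h : Dat G X L T)
    (W : Finset G.V) : ∃ M, ∀ i, M < i → Disjoint (vs G (T i)) W := by
  induction W using Finset.induction_on with
  | empty => exact ⟨0, fun i _ => disjoint_empty_right _⟩
  | insert x W _ ih =>
    obtain ⟨M, hM⟩ := ih
    by_cases hx : ∃ j, x ∈ vs G (T j)
    · obtain ⟨j, hj⟩ := hx
      refine ⟨max M j, fun i hi => ?_⟩
      rw [disjoint_insert_right]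
      refine ⟨fun h2 => ?_, hM i (by omega)⟩
      exact disjoint_left.1 (h.disj i j (by omega)) h2 hj
    · refine ⟨M, fun i hi => ?_⟩
      rw [disjoint_insert_right]
      exact ⟨fun h2 => hx ⟨i, h2⟩, hM i hi⟩

theorem good_elim {X X' : Set G.E} (h : Good G X) (h' : Good G X') (hne : X ≠ X') (e : G.E) :
    ∃ B, Good G B ∧ B ⊆ (X ∪ X') \ {e} := by
  have hns : ¬ X' ⊆ X := fun hs => hne (good_eq h h' hs).symm
  obtain ⟨f, hf', hf⟩ := Set.not_subset.1 hns
  obtain ⟨L, T, h⟩ := h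
  obtain ⟨L', T', h'⟩ := h'
  obtain ⟨j, hj⟩ := (h'.cover f).1 hf'
  obtain ⟨M, hM⟩ := h.far (vs G (T' j ∪ {e}))
  obtain ⟨S, hS, -, s2⟩ := h.absorb M
  have hfar : ∀ i, Disjoint (vs G (S (i + 1))) (vs G (T' j ∪ {e})) := fun i => by
    rw [s2]; exact hM _ (by omega)
  have a1 := ex_super (S 0) (T' j)
  have a2 := h'.tight j (S 0 ∩ T' j) (Finset.ssubset_iff_subset_ne.2 ⟨inter_subset_right, fun h3 => by
    have : f ∈ S 0 ∩ T' j := h3.symm ▸ hj
    exact hf ((hS.cover f).2 ⟨0, (mem_inter.1 this).1⟩)⟩)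
  have a3 := ex_erase (S 0 ∪ T' j) e
  have a4 := hS.ex0
  obtain ⟨W, hW, hWt, hWe⟩ := exists_tight (L + M) ((S 0 ∪ T' j).erase e) (by omega)
  let R : ℕ → Finset G.E := fun i => Nat.casesOn i W (fun i => S (i + 1))
  have d0 : ∀ i, Disjoint (vs G W) (vs G (S (i + 1))) := by
    intro i
    refine Disjoint.mono_left (vs_mono (hW.trans (erase_subset _ _))) ?_
    rw [vs_union, disjoint_union_left]
    exact ⟨hS.disj _ _ (by omega), (hfar i).symm.mono_left (vs_mono subset_union_left)⟩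
  refine ⟨{x | ∃ i, x ∈ R i}, ⟨L + M, R, ?_, fun _ => Iff.rfl, ?_, hWe, hS.ex1, hS.card1⟩, ?_⟩
  · intro i k hik
    rcases i with _ | i <;> rcases k with _ | k
    · exact absurd rfl hik
    · exact d0 k
    · exact (d0 i).symm
    · exact hS.disj _ _ hik
  · intro i
    rcases i with _ | i
    · exact hWt
    · exact hS.tight _
  · rintro x ⟨i, hi⟩
    rcases i with _ | i
    · have h3 := mem_erase.1 (hW hi)
      refine ⟨?_, h3.1⟩
      rcases mem_union.1 h3.2 with h4 | h4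
      · exact Or.inl ((hS.cover x).2 ⟨0, h4⟩)
      · exact Or.inr ((h'.cover x).2 ⟨j, h4⟩)
    · refine ⟨Or.inl ((hS.cover x).2 ⟨i + 1, hi⟩), fun h3 => ?_⟩
      exact not_mem_of_disj (hfar i) hi (mem_union_right _ (mem_singleton.2 h3))

end Pool.Agent.H.MP_221c76_co
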