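import Pool.Agent.H.MP_221c76_co.A

set_option autoImplicit false

namespace Pool.Agent.H.MP_221c76_co

open Finset Classical

section emb
variable {G H : MG} (f : Emb G H)

theorem vs_image (Y : Finset G.E) : vs H (Y.image f.fE) = (vs G Y).image f.fV := by
  ext x
  simp only [mem_vs, mem_image]
  constructor
  · rintro ⟨_, ⟨e, he, rfl⟩, hx⟩
    rw [f.comm, Sym2.mem_map] at hx
    obtain ⟨a, ha, rfl⟩ := hx
    exact ⟨a, ⟨e, he, ha⟩, rfl⟩
  · rintro ⟨a, ⟨e, he, ha⟩, rfl⟩
    exact ⟨_, ⟨e, he, rfl⟩, by rw [f.comm, Sym2.mem_map]; exact ⟨a, ha, rfl⟩⟩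

theorem ex_image (Y : Finset G.E) : ex H (Y.image f.fE) = ex G Y := by
  simp only [ex, vs_image, card_image_of_injective _ f.injE, card_image_of_injective _ f.injV]

theorem tight_image (Y : Finset G.E) : Tight H (Y.image f.fE) ↔ Tight G Y := by
  constructor
  · intro h Z hZ
    rw [← ex_image f, ← ex_image f]
    exact h _ (image_ssubset_image f.injE |>.2 hZ)
  · intro h Z hZ
    obtain ⟨W, -, rfl⟩ := subset_image_iff.1 hZ.subset
    rw [ex_image, ex_image]
    exact h _ (image_ssubset_image f.injE |>.1 hZ)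

theorem dat_image (X : Set G.E) (L : ℕ) (T : ℕ → Finset G.E) :
    Dat H (f.fE '' X) L (fun i => (T i).image f.fE) ↔ Dat G X L T := by
  constructor
  · intro h
    refine ⟨fun i j hij => ?_, fun e => ?_, fun i => (tight_image f _).1 (h.tight i), ?_,
      fun i => ?_, fun i => ?_⟩
    · have := h.disj i j hij
      rwa [vs_image, vs_image, disjoint_image f.injV] at this
    · have := h.cover (f.fE e)
      simpa only [f.injE.mem_set_image, f.injE.mem_finset_image] using this
    · rw [← ex_image f]; exact h.ex0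
    · rw [← ex_image f]; exact h.ex1 i
    · rw [← card_image_of_injective _ f.injE]; exact h.card1 i
  · intro h
    refine ⟨fun i j hij => ?_, fun e => ?_, fun i => (tight_image f _).2 (h.tight i), ?_,
      fun i => ?_, fun i => ?_⟩
    · rw [vs_image, vs_image, disjoint_image f.injV]
      exact h.disj i j hij
    · constructor
      · rintro ⟨a, ha, rfl⟩
        obtain ⟨i, hi⟩ := (h.cover a).1 ha
        exact ⟨i, mem_image_of_mem _ hi⟩
      · rintro ⟨i, hi⟩
        obtain ⟨a, ha, rfl⟩ := mem_image.1 hi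
        exact ⟨a, (h.cover a).2 ⟨i, ha⟩, rfl⟩
    · rw [ex_image f]; exact h.ex0
    · rw [ex_image f]; exact h.ex1 i
    · rw [card_image_of_injective _ f.injE]; exact h.card1 i

theorem good_range : Good H (Set.range f.fE) ↔ Good G Set.univ := by
  rw [← Set.image_univ]
  constructor
  · rintro ⟨L, T, h⟩
    have : ∀ i, ∃ Y : Finset G.E, Y.image f.fE = T i := by
      intro i
      refine ⟨(T i).preimage f.fE f.injE.injOn, ?_⟩
      ext e
      simp only [mem_image, mem_preimage]
      constructor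
      · rintro ⟨a, ha, rfl⟩; exact ha
      · intro he
        obtain ⟨a, -, rfl⟩ := (h.cover e).2 ⟨i, he⟩
        exact ⟨a, he, rfl⟩
    choose S hS using this
    refine ⟨L, S, (dat_image f _ _ _).1 ?_⟩
    simpa only [hS] using h
  · rintro ⟨L, T, h⟩
    exact ⟨L, _, (dat_image f _ _ _).2 h⟩

end emb

def Mem (G : MG) : Prop := (∀ v : G.V, ∃ e, v ∈ G.ends e) ∧ Good G Set.univ

def sub (G : MG) (X : Set G.E) : MG where
  V := {v // ∃ e ∈ X, v ∈ G.ends e}
  E := X
  ends := fun e => (G.ends e.1).attachWith (fun _ h => ⟨e.1, e.2, h⟩)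

def subEmb (G : MG) (X : Set G.E) : Emb (sub G X) G where
  fV := Subtype.val
  fE := Subtype.val
  injV := Subtype.val_injective
  injE := Subtype.val_injective
  comm := fun _ => (Sym2.attachWith_map_subtypeVal _).symm

theorem mem_sub {G : MG} {X : Set G.E} (h : Good G X) : Mem (sub G X) := by
  refine ⟨?_, (good_range (subEmb G X)).1 ?_⟩
  · rintro ⟨v, e, he, hv⟩
    refine ⟨⟨e, he⟩, ?_⟩
    have h1 : v ∈ G.ends ((subEmb G X).fE ⟨e, he⟩) := hv
    rw [(subEmb G X).comm, Sym2.mem_map] at h1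
    obtain ⟨a, ha, h2⟩ := h1
    have : a = ⟨v, e, he, hv⟩ := Subtype.ext h2
    exact this ▸ ha
  · have : Set.range (subEmb G X).fE = X := Subtype.range_val
    rwa [this]

theorem circ_iff (G : MG) (X : Set G.E) : X ∈ circuits {K | Mem K} G ↔ Good G X := by
  constructor
  · rintro ⟨K, hK, f, rfl⟩
    exact (good_range f).2 hK.2
  · intro h
    exact ⟨sub G X, mem_sub h, subEmb G X, Subtype.range_val.symm⟩

theorem iso_mem {G H : MG} (h : Iso G H) : Mem G ↔ Mem H := by
  obtain ⟨f, hV, hE⟩ := h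
  refine and_congr ?_ ?_
  · constructor
    · intro h v
      obtain ⟨a, rfl⟩ := hV v
      obtain ⟨e, he⟩ := h a
      exact ⟨f.fE e, by rw [f.comm, Sym2.mem_map]; exact ⟨a, he, rfl⟩⟩
    · intro h v
      obtain ⟨e, he⟩ := h (f.fV v)
      obtain ⟨e, rfl⟩ := hE e
      rw [f.comm, Sym2.mem_map] at he
      obtain ⟨a, ha, h2⟩ := he
      exact ⟨e, f.injV h2 ▸ ha⟩
  · rw [← good_range f, hE.range_eq]

noncomputable def dd {V : Type} (z : Sym2 V) (v : V) : ℕ :=
  if z = s(v, v) then 2 else if v ∈ z then 1 else 0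

theorem dd_mk {V : Type} (a b v : V) :
    dd s(a, b) v = (if a = v then 1 else 0) + (if b = v then 1 else 0) := by
  have e1 : (s(a, b) = s(v, v)) ↔ (a = v ∧ b = v) := by
    rw [Sym2.eq_iff, or_self]
  have e2 : v ∈ s(a, b) ↔ (a = v ∨ b = v) := by
    rw [Sym2.mem_iff, eq_comm, eq_comm (a := v)]
  unfold dd
  simp only [e1, e2]
  by_cases ha : a = v <;> by_cases hb : b = v <;> simp [ha, hb]

theorem dd_map {V W : Type} {g : V → W} (hg : Function.Injective g) (z : Sym2 V) (v : V) :
    dd (z.map g) (g v) = dd z v := by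
  induction z using Sym2.ind with
  | _ a b => simp only [Sym2.map_mk, dd_mk, hg.eq_iff]

theorem dd_zero {V : Type} {z : Sym2 V} {v : V} (h : v ∉ z) : dd z v = 0 := by
  unfold dd
  rw [if_neg, if_neg h]
  rintro rfl
  simp at h

theorem dd_le {V : Type} (z : Sym2 V) (v : V) : dd z v ≤ 2 := by
  unfold dd
  split_ifs <;> omega

def Big (G : MG) (k : ℕ) : Prop := ∃ (v : G.V) (S : Finset G.E), k ≤ ∑ e ∈ S, dd (G.ends e) v

theorem big_emb {G H : MG} (f : Emb G H) (v : G.V) (S : Finset G.E) :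
    ∑ e ∈ S.image f.fE, dd (H.ends e) (f.fV v) = ∑ e ∈ S, dd (G.ends e) v := by
  rw [sum_image f.injE.injOn]
  exact sum_congr rfl (fun e _ => by rw [f.comm, dd_map f.injV])

theorem iso_big {G H : MG} (h : Iso G H) (k : ℕ) : Big G k ↔ Big H k := by
  obtain ⟨f, hV, hE⟩ := h
  constructor
  · rintro ⟨v, S, h⟩
    exact ⟨f.fV v, S.image f.fE, by rwa [big_emb f]⟩
  · rintro ⟨v, S, h⟩
    obtain ⟨v, rfl⟩ := hV v
    have : S = (S.preimage f.fE f.injE.injOn).image f.fE := by
      ext e
      obtain ⟨a, rfl⟩ := hE e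
      simp only [f.injE.mem_finset_image, mem_preimage]
    rw [this, big_emb f] at h
    exact ⟨v, _, h⟩

end Pool.Agent.H.MP_221c76_co
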