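import Pool.Agent.H.MP_221c76_co.B

set_option autoImplicit false

namespace Pool.Agent.H.MP_221c76_co

open Finset Classical

structure Opt (A B : Type) where
  n : B
  s : A → B
  inj : Function.Injective s
  ne : ∀ a, s a ≠ n
  cases : ∀ b, b = n ∨ ∃ a, b = s a

def optOpt (A : Type) : Opt A (Option A) where
  n := none
  s := some
  inj := Option.some_injective _
  ne := fun _ => by simp
  cases := fun b => by cases b <;> simp

theorem card_opt {A B : Type} (o : Opt A B) (S : Finset B) (T : Finset A) (p : Prop)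
    (h1 : ∀ x, o.s x ∈ S ↔ x ∈ T) (h2 : o.n ∈ S ↔ p) :
    S.card = T.card + if p then 1 else 0 := by
  have e : S.erase o.n = T.image o.s := by
    ext x
    rcases o.cases x with rfl | ⟨a, rfl⟩
    · simp [o.ne]
    · rw [o.inj.mem_finset_image, mem_erase, h1]
      simp [o.ne]
  have e2 := congrArg card e
  rw [card_image_of_injective _ o.inj] at e2
  by_cases hp : p
  · have := card_erase_add_one (h2.2 hp)
    rw [if_pos hp]
    omega
  · rw [erase_eq_of_notMem (fun h => hp (h2.1 h))] at e2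
    rw [if_neg hp]
    omega

structure SD (G H : MG) where
  e0 : G.E
  u : G.V
  v : G.V
  oV : Opt G.V H.V
  oE : Opt G.E H.E
  h0 : G.ends e0 = s(u, v)
  ends_none : H.ends oE.n = s(oV.n, oV.s v)
  ends_e0 : H.ends (oE.s e0) = s(oV.s u, oV.n)
  ends_some : ∀ e, e ≠ e0 → H.ends (oE.s e) = (G.ends e).map oV.s

noncomputable def mkSD (G : MG) (e0 : G.E) (u v : G.V) (h0 : G.ends e0 = s(u, v)) :
    SD G (subdivide G e0 u v) where
  e0 := e0
  u := u
  v := v
  oV := optOpt _
  oE := optOpt _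
  h0 := h0
  ends_none := rfl
  ends_e0 := if_pos rfl
  ends_some := fun _ h => if_neg h

section subd
variable {G H : MG} (d : SD G H)

noncomputable def star (Y : Finset G.E) : Finset H.E :=
  if d.e0 ∈ Y then insert d.oE.n (Y.image d.oE.s) else Y.image d.oE.s

noncomputable def pre (Z : Finset H.E) : Finset G.E := Z.preimage d.oE.s d.oE.inj.injOn

variable {d}

theorem mem_pre {Z : Finset H.E} {e : G.E} : e ∈ pre d Z ↔ d.oE.s e ∈ Z := mem_preimage

theorem some_star {Y : Finset G.E} {e : G.E} : d.oE.s e ∈ star d Y ↔ e ∈ Y := by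
  unfold star
  split_ifs
  · rw [mem_insert, d.oE.inj.mem_finset_image]
    simp [d.oE.ne]
  · rw [d.oE.inj.mem_finset_image]

theorem none_star {Y : Finset G.E} : d.oE.n ∈ star d Y ↔ d.e0 ∈ Y := by
  unfold star
  split_ifs with h
  · simp [h]
  · simp [h, d.oE.ne]

theorem none_vs {Z : Finset H.E} :
    d.oV.n ∈ vs H Z ↔ (d.oE.n ∈ Z ∨ d.oE.s d.e0 ∈ Z) := by
  rw [mem_vs]
  constructor
  · rintro ⟨e, he, hx⟩
    rcases d.oE.cases e with rfl | ⟨e, rfl⟩
    · exact Or.inl he
    · by_cases h : e = d.e0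
      · exact Or.inr (h ▸ he)
      · rw [d.ends_some e h] at hx
        obtain ⟨a, -, ha⟩ := Sym2.mem_map.1 hx
        exact absurd ha (d.oV.ne a)
  · rintro (h | h)
    · exact ⟨_, h, by rw [d.ends_none]; exact Sym2.mem_mk_left _ _⟩
    · exact ⟨_, h, by rw [d.ends_e0]; exact Sym2.mem_mk_right _ _⟩

theorem none_vs_star {Y : Finset G.E} : d.oV.n ∈ vs H (star d Y) ↔ d.e0 ∈ Y := by
  rw [none_vs, none_star, some_star, or_self]

theorem some_vs_star {Y : Finset G.E} {x : G.V} :
    d.oV.s x ∈ vs H (star d Y) ↔ x ∈ vs G Y := by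
  rw [mem_vs, mem_vs]
  constructor
  · rintro ⟨e, he, hx⟩
    rcases d.oE.cases e with rfl | ⟨e, rfl⟩
    · rw [d.ends_none] at hx
      rcases Sym2.mem_iff.1 hx with h | h
      · exact absurd h (d.oV.ne _)
      · exact ⟨d.e0, none_star.1 he, by rw [d.h0, d.oV.inj h]; simp⟩
    · by_cases h : e = d.e0
      · subst h
        rw [d.ends_e0] at hx
        rcases Sym2.mem_iff.1 hx with h | h
        · exact ⟨d.e0, some_star.1 he, by rw [d.h0, d.oV.inj h]; simp⟩
        · exact absurd h (d.oV.ne _)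
      · rw [d.ends_some e h] at hx
        obtain ⟨a, h1, ha⟩ := Sym2.mem_map.1 hx
        exact ⟨e, some_star.1 he, d.oV.inj ha ▸ h1⟩
  · rintro ⟨e, he, hx⟩
    by_cases h : e = d.e0
    · subst h
      rw [d.h0] at hx
      rcases Sym2.mem_iff.1 hx with h | h
      · exact ⟨_, some_star.2 he, by rw [d.ends_e0, h]; exact Sym2.mem_mk_left _ _⟩
      · exact ⟨_, none_star.2 he, by rw [d.ends_none, h]; exact Sym2.mem_mk_right _ _⟩
    · exact ⟨_, some_star.2 he, by rw [d.ends_some e h]; exact Sym2.mem_map.2 ⟨x, hx, rfl⟩⟩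

theorem card_star (Y : Finset G.E) :
    (star d Y).card = Y.card + if d.e0 ∈ Y then 1 else 0 := by
  convert card_opt d.oE _ _ _ (fun _ => some_star) (none_star (Y := Y))

theorem ex_star (Y : Finset G.E) : ex H (star d Y) = ex G Y := by
  have h2 : (vs H (star d Y)).card = (vs G Y).card + if d.e0 ∈ Y then 1 else 0 := by
    convert card_opt d.oV _ _ _ (fun _ => some_vs_star) (none_vs_star (Y := Y))
  simp only [ex, card_star, h2]
  push_cast
  ring

theorem star_sub {Y Z : Finset G.E} : star d Y ⊆ star d Z ↔ Y ⊆ Z := by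
  constructor
  · intro h e he
    exact some_star.1 (h (some_star.2 he))
  · intro h e he
    rcases d.oE.cases e with rfl | ⟨e, rfl⟩
    · exact none_star.2 (h (none_star.1 he))
    · exact some_star.2 (h (some_star.1 he))

theorem star_ssub {Y Z : Finset G.E} : star d Y ⊂ star d Z ↔ Y ⊂ Z := by
  simp only [Finset.ssubset_def, star_sub]

theorem eq_star {Z : Finset H.E} (h : d.oE.n ∈ Z ↔ d.oE.s d.e0 ∈ Z) :
    ∃ W, Z = star d W := by
  refine ⟨pre d Z, ?_⟩
  ext e
  rcases d.oE.cases e with rfl | ⟨e, rfl⟩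
  · rw [none_star, h, mem_pre]
  · rw [some_star, mem_pre]

theorem tight_star (Y : Finset G.E) : Tight H (star d Y) ↔ Tight G Y := by
  constructor
  · intro h Z hZ
    rw [← ex_star (d := d), ← ex_star (d := d)]
    exact h _ (star_ssub.2 hZ)
  · intro h
    have both : ∀ Z, Z ⊂ star d Y → (d.oE.n ∈ Z ↔ d.oE.s d.e0 ∈ Z) →
        ex _ Z < ex _ (star d Y) := by
      intro Z hZ hb
      obtain ⟨W, rfl⟩ := eq_star hb
      rw [ex_star, ex_star]
      exact h _ (star_ssub.1 hZ)
    have one : ∀ Z, Z ⊂ star d Y → ∀ a ∈ Z, d.oV.n ∈ vs _ Z → d.oV.n ∉ vs _ (Z.erase a) →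
        ex _ Z < ex _ (star d Y) := by
      intro Z hZ a ha h1 h2
      have h3 := both (Z.erase a) ((erase_subset a Z).trans_ssubset hZ) (by
        rw [none_vs, not_or] at h2
        exact iff_of_false h2.1 h2.2)
      have h4 : (vs _ (Z.erase a)).card < (vs _ Z).card :=
        card_lt_card (Finset.ssubset_iff_subset_ne.2 ⟨vs_mono (erase_subset _ _), fun h5 =>
          h2 (h5.symm ▸ h1)⟩)
      have h5 := card_erase_add_one ha
      simp only [ex] at h3 ⊢
      omega
    intro Z hZ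
    by_cases h1 : d.oE.n ∈ Z <;> by_cases h2 : d.oE.s d.e0 ∈ Z
    · exact both Z hZ (iff_of_true h1 h2)
    · refine one Z hZ _ h1 (none_vs.2 (Or.inl h1)) ?_
      rw [none_vs, not_or]
      exact ⟨notMem_erase _ _, fun h3 => h2 (mem_of_mem_erase h3)⟩
    · refine one Z hZ _ h2 (none_vs.2 (Or.inr h2)) ?_
      rw [none_vs, not_or]
      exact ⟨fun h3 => h1 (mem_of_mem_erase h3), notMem_erase _ _⟩
    · exact both Z hZ (iff_of_false h1 h2)

theorem dat_star (L : ℕ) (T : ℕ → Finset G.E) (hT : d.e0 ∈ T 0)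
    (hT1 : ∀ i, d.e0 ∉ T (i + 1)) :
    Dat H Set.univ L (fun i => star d (T i)) ↔ Dat G Set.univ L T := by
  have hc : ∀ i, (star d (T (i + 1))).card = (T (i + 1)).card := by
    intro i
    rw [card_star, if_neg (hT1 i), add_zero]
  constructor
  · intro h
    refine ⟨fun i j hij => ?_, fun e => ?_, fun i => (tight_star _).1 (h.tight i), ?_,
      fun i => ?_, fun i => ?_⟩
    · rw [disjoint_left]
      intro x h1 h2
      exact disjoint_left.1 (h.disj i j hij) (some_vs_star.2 h1) (some_vs_star.2 h2)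
    · have := h.cover (d.oE.s e)
      simpa only [some_star, Set.mem_univ] using this
    · rw [← ex_star (d := d)]; exact h.ex0
    · rw [← ex_star (d := d)]; exact h.ex1 i
    · rw [← hc]; exact h.card1 i
  · intro h
    refine ⟨fun i j hij => ?_, fun e => ?_, fun i => (tight_star _).2 (h.tight i), ?_,
      fun i => ?_, fun i => ?_⟩
    · rw [disjoint_left]
      intro x h1 h2
      rcases d.oV.cases x with rfl | ⟨x, rfl⟩
      · exact not_mem_of_disj (h.disj i j hij) (none_vs_star.1 h1) (none_vs_star.1 h2)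
      · exact disjoint_left.1 (h.disj i j hij) (some_vs_star.1 h1) (some_vs_star.1 h2)
    · refine iff_of_true (Set.mem_univ _) ?_
      rcases d.oE.cases e with rfl | ⟨e, rfl⟩
      · exact ⟨0, none_star.2 hT⟩
      · obtain ⟨i, hi⟩ := (h.cover e).1 (Set.mem_univ _)
        exact ⟨i, some_star.2 hi⟩
    · rw [ex_star]; exact h.ex0
    · rw [ex_star]; exact h.ex1 i
    · rw [hc]; exact h.card1 i

theorem Good.at {K : MG} (h : Good K Set.univ) (e : K.E) :
    ∃ L T, Dat K Set.univ L T ∧ e ∈ T 0 := by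
  obtain ⟨L, T, h⟩ := h
  obtain ⟨M, hM⟩ := (h.cover e).1 (Set.mem_univ _)
  obtain ⟨S, hS, h1, -⟩ := h.absorb M
  exact ⟨_, S, hS, h1 M le_rfl hM⟩

theorem good_subd (d : SD G H) : Good H Set.univ ↔ Good G Set.univ := by
  constructor
  · intro h
    obtain ⟨L, T, h, hT⟩ := h.at d.oE.n
    have hn : ∀ i, d.oV.n ∉ vs _ (T (i + 1)) := fun i h1 =>
      disjoint_left.1 (h.disj 0 (i + 1) (by omega)) (none_vs.2 (Or.inl hT)) h1
    have hT2 : d.oE.s d.e0 ∈ T 0 := by
      obtain ⟨i, hi⟩ := (h.cover (d.oE.s d.e0)).1 (Set.mem_univ _)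
      rcases i with _ | i
      · exact hi
      · exact absurd (none_vs.2 (Or.inr hi)) (hn i)
    have : ∀ i, ∃ W, T i = star d W := by
      intro i
      apply eq_star
      rcases i with _ | i
      · exact iff_of_true hT hT2
      · have := hn i
        rw [none_vs, not_or] at this
        exact iff_of_false this.1 this.2
    choose S hS using this
    refine ⟨L, S, (dat_star (d := d) L S ?_ ?_).1 ?_⟩
    · rw [hS 0] at hT
      exact none_star.1 hT
    · intro i hi
      apply hn i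
      rw [hS]
      exact none_vs_star.2 hi
    · have : T = fun i => star d (S i) := funext hS
      rwa [← this]
  · intro h
    obtain ⟨L, T, h, hT⟩ := h.at d.e0
    exact ⟨L, _, (dat_star (d := d) L T hT (fun i hi =>
      not_mem_of_disj (h.disj 0 (i + 1) (by omega)) hT hi)).2 h⟩

theorem sub_star (S : Finset H.E) : S ⊆ star d (insert d.e0 (pre d S)) := by
  intro e he
  rcases d.oE.cases e with rfl | ⟨e, rfl⟩
  · exact none_star.2 (mem_insert_self _ _)
  · exact some_star.2 (mem_insert_of_mem (mem_pre.2 he))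

theorem mem_subd (d : SD G H) : Mem G ↔ Mem H := by
  refine and_congr ?_ (good_subd d).symm
  constructor
  · intro h x
    rcases d.oV.cases x with rfl | ⟨x, rfl⟩
    · exact ⟨d.oE.n, by rw [d.ends_none]; exact Sym2.mem_mk_left _ _⟩
    · obtain ⟨e, he⟩ := h x
      have : x ∈ vs G {e} := mem_vs.2 ⟨e, mem_singleton_self _, he⟩
      obtain ⟨a, -, ha⟩ := mem_vs.1 ((some_vs_star (d := d)).2 this)
      exact ⟨a, ha⟩
  · intro h x
    obtain ⟨e, he⟩ := h (d.oV.s x)
    have : d.oV.s x ∈ vs _ (star d (insert d.e0 (pre d {e}))) :=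
      mem_vs.2 ⟨e, sub_star _ (mem_singleton_self _), he⟩
    obtain ⟨a, -, ha⟩ := mem_vs.1 (some_vs_star.1 this)
    exact ⟨a, ha⟩

theorem sum_star (Y : Finset G.E) (hY : d.e0 ∈ Y) (x : G.V) :
    ∑ e ∈ star d Y, dd (H.ends e) (d.oV.s x) = ∑ e ∈ Y, dd (G.ends e) x := by
  have hn : d.oE.n ∉ Y.image d.oE.s := by simp [d.oE.ne]
  unfold star
  rw [if_pos hY, sum_insert hn, sum_image d.oE.inj.injOn]
  rw [← add_sum_erase Y _ hY, ← add_sum_erase Y _ hY, ← add_assoc]
  congr 1
  · rw [d.ends_none, d.ends_e0, d.h0, dd_mk, dd_mk, dd_mk, if_neg (d.oV.ne x).symm]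
    simp only [d.oV.inj.eq_iff]
    omega
  · refine sum_congr rfl (fun e he => ?_)
    rw [d.ends_some e (mem_erase.1 he).1]
    exact dd_map d.oV.inj _ _

theorem big_subd (d : SD G H) {k : ℕ} (hk : 3 ≤ k) : Big G k ↔ Big H k := by
  constructor
  · rintro ⟨x, S, h⟩
    refine ⟨d.oV.s x, star d (insert d.e0 S), ?_⟩
    rw [sum_star _ (mem_insert_self _ _)]
    exact h.trans (sum_le_sum_of_subset (subset_insert _ _))
  · rintro ⟨x, S, h⟩
    rcases d.oV.cases x with rfl | ⟨x, rfl⟩
    · exfalso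
      have h1 : ∑ e ∈ S, dd (H.ends e) d.oV.n ≤
          ∑ e ∈ ({d.oE.n, d.oE.s d.e0} : Finset H.E), dd (H.ends e) d.oV.n := by
        apply sum_le_sum_of_ne_zero
        intro e _ hne
        by_contra hc
        apply hne
        apply dd_zero
        intro h2
        have h3 : d.oV.n ∈ vs _ ({e} : Finset H.E) := mem_vs.2 ⟨e, mem_singleton_self _, h2⟩
        rw [none_vs, mem_singleton, mem_singleton] at h3
        apply hc
        rcases h3 with h3 | h3
        · rw [← h3]; exact mem_insert_self _ _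
        · rw [← h3]; exact mem_insert_of_mem (mem_singleton_self _)
      rw [sum_pair (d.oE.ne _).symm, d.ends_none, d.ends_e0, dd_mk, dd_mk, if_neg (d.oV.ne _),
        if_neg (d.oV.ne _), if_pos rfl] at h1
      omega
    · refine ⟨x, insert d.e0 (pre d S), ?_⟩
      rw [← sum_star _ (mem_insert_self _ _)]
      exact h.trans (sum_le_sum_of_subset (sub_star S))

end subd

theorem step_inv {G H : MG} (h : Step G H) :
    (Mem G ↔ Mem H) ∧ ∀ k, 3 ≤ k → (Big G k ↔ Big H k) := by
  rcases h with h | ⟨e, u, v, h0, rfl⟩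
  · exact ⟨iso_mem h, fun k _ => iso_big h k⟩
  · exact ⟨mem_subd (mkSD G e u v h0), fun k hk => big_subd (mkSD G e u v h0) hk⟩

theorem star_inv {G H : MG} (h : Relation.ReflTransGen Step G H) :
    (Mem G ↔ Mem H) ∧ ∀ k, 3 ≤ k → (Big G k ↔ Big H k) := by
  induction h with
  | refl => exact ⟨Iff.rfl, fun _ _ => Iff.rfl⟩
  | tail _ h2 ih =>
    exact ⟨ih.1.trans (step_inv h2).1, fun k hk => (ih.2 k hk).trans ((step_inv h2).2 k hk)⟩

theorem homeo_inv {G H : MG} (h : Homeo G H) :
    (Mem G ↔ Mem H) ∧ ∀ k, 3 ≤ k → (Big G k ↔ Big H k) := by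
  obtain ⟨K, h1, h2⟩ := h
  exact ⟨(star_inv h1).1.symm.trans (star_inv h2).1,
    fun k hk => ((star_inv h1).2 k hk).symm.trans ((star_inv h2).2 k hk)⟩

theorem eqv_inv {G H : MG} (h : Relation.EqvGen Homeo G H) (k : ℕ) (hk : 3 ≤ k) :
    Big G k ↔ Big H k := by
  induction h with
  | rel _ _ h => exact (homeo_inv h).2 k hk
  | refl => exact Iff.rfl
  | symm _ _ _ ih => exact ih.symm
  | trans _ _ _ _ _ ih1 ih2 => exact ih1.trans ih2

end Pool.Agent.H.MP_221c76_co
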