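import Pool.Agent.H.MP_221c76_co.C

set_option autoImplicit false

namespace Pool.Agent.H.MP_221c76_co

open Finset Classical

def nn (k c : ℕ) : ℕ := if c = 0 then 0 else k + c - 1

abbrev Gk (k : ℕ) : MG where
  V := ℕ × ℕ
  E := ℕ × ℕ
  ends := fun p => s((p.1, min (p.2 - 1) (nn k p.1)), (p.1, min p.2 (nn k p.1)))

noncomputable def Tk (k c : ℕ) : Finset (Gk k).E :=
  (range (k + 2 + (c - 1))).image (fun j => ((c, j) : ℕ × ℕ))

theorem mem_Tk {k c : ℕ} {p : ℕ × ℕ} : p ∈ Tk k c ↔ p.1 = c ∧ p.2 < k + 2 + (c - 1) := by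
  obtain ⟨a, b⟩ := p
  simp only [Tk, mem_image, mem_range, Prod.mk.injEq]
  constructor
  · rintro ⟨j, hj, rfl, rfl⟩
    exact ⟨rfl, hj⟩
  · rintro ⟨rfl, h⟩
    exact ⟨b, h, rfl, rfl⟩

theorem mem_ends {k : ℕ} {p x : ℕ × ℕ} : x ∈ (Gk k).ends p ↔
    x.1 = p.1 ∧ (x.2 = min (p.2 - 1) (nn k p.1) ∨ x.2 = min p.2 (nn k p.1)) := by
  obtain ⟨a, b⟩ := x
  simp only [Sym2.mem_iff, Prod.mk.injEq]
  tauto

theorem card_Tk (k c : ℕ) : (Tk k c).card = k + 2 + (c - 1) := by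
  rw [Tk, card_image_of_injective _ (fun a b h => (Prod.mk.inj h).2), card_range]

theorem nn_lt (k c : ℕ) : nn k c + 1 < k + 2 + (c - 1) := by
  unfold nn
  split_ifs <;> omega

theorem vs_Tk (k c : ℕ) : vs (Gk k) (Tk k c) =
    (range (nn k c + 1)).image (fun j => ((c, j) : ℕ × ℕ)) := by
  ext ⟨a, b⟩
  rw [mem_vs (G := Gk k)]
  simp only [mem_image, mem_range, Prod.mk.injEq]
  constructor
  · rintro ⟨e, he, hx⟩
    rw [mem_Tk] at he
    rw [mem_ends, he.1] at hx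
    refine ⟨b, ?_, hx.1.symm, rfl⟩
    have := hx.2
    simp only at this
    omega
  · rintro ⟨j, hj, rfl, rfl⟩
    have := nn_lt k c
    refine ⟨(c, j), mem_Tk.2 ⟨rfl, by simp only; omega⟩, mem_ends.2 ⟨rfl, Or.inr ?_⟩⟩
    simp only
    omega

theorem ex_Tk (k c : ℕ) : ex (Gk k) (Tk k c) = ((k + 2 + (c - 1) : ℕ) : ℤ) - (nn k c + 1 : ℕ) := by
  rw [ex, card_Tk, vs_Tk, card_image_of_injective _ (fun a b h => (Prod.mk.inj h).2), card_range]

def Xk (k : ℕ) : Set (Gk k).E := {p | p.2 < k + 2 + (p.1 - 1)}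

theorem dat_k (k : ℕ) : Dat (Gk k) (Xk k) (k + 1) (Tk k) := by
  refine ⟨fun i j hij => ?_, fun e => ?_, fun c => ?_, ?_, fun i => ?_, fun i => ?_⟩
  · rw [vs_Tk, vs_Tk, disjoint_left]
    intro x h1 h2
    obtain ⟨a, -, rfl⟩ := mem_image.1 h1
    obtain ⟨b, -, h⟩ := mem_image.1 h2
    exact hij (Prod.mk.inj h).1.symm
  · constructor
    · intro h
      exact ⟨e.1, mem_Tk.2 ⟨rfl, h⟩⟩
    · rintro ⟨i, hi⟩
      rw [mem_Tk] at hi
      show e.2 < k + 2 + (e.1 - 1)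
      rw [hi.1]
      exact hi.2
  · intro Z hZ
    rw [ex_Tk]
    have hlt := card_lt_card hZ
    rw [card_Tk] at hlt
    rcases c with _ | c
    · rcases Z.eq_empty_or_nonempty with rfl | ⟨e, he⟩
      · rw [ex_empty]
        simp only [nn, if_true]
        omega
      · obtain ⟨x, hx⟩ := has_end e
        have := card_pos.2 ⟨x, mem_vs.2 ⟨e, he, hx⟩⟩
        simp only [nn, if_true, ex]
        omega
    · obtain ⟨q, hq, hqZ⟩ := exists_of_ssubset hZ
      rw [mem_Tk] at hq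
      have hn : nn k (c + 1) = k + c := by simp [nn]
      have : Z.card ≤ (vs (Gk k) Z).card := by
        apply card_le_card_of_injOn (fun p : ℕ × ℕ => (p.1, if p.2 < q.2 then p.2 else p.2 - 1))
        · intro p hp
          have h1 := mem_Tk.1 (hZ.subset hp)
          refine mem_vs.2 ⟨p, hp, mem_ends.2 ⟨rfl, ?_⟩⟩
          rw [h1.1, hn]
          have := h1.2
          have := hq.2
          simp only
          split_ifs <;> omega
        · intro p hp p' hp' h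
          have h1 := mem_Tk.1 (hZ.subset hp)
          have h2 := mem_Tk.1 (hZ.subset hp')
          have h3 : p.2 ≠ q.2 := fun h4 => hqZ (by
            rw [← show p = q from Prod.ext (h1.1.trans hq.1.symm) h4]; exact hp)
          have h4 : p'.2 ≠ q.2 := fun h4 => hqZ (by
            rw [← show p' = q from Prod.ext (h2.1.trans hq.1.symm) h4]; exact hp')
          have h5 := (Prod.mk.inj h).2
          refine Prod.ext (h1.1.trans h2.1.symm) ?_
          split_ifs at h5 <;> omega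
      rw [hn, ex]
      omega
  · rw [ex_Tk]
    simp only [nn, if_true]
    omega
  · have hn : nn k (i + 1) = k + i := by simp [nn]
    rw [ex_Tk, hn]
    omega
  · rw [card_Tk]
    omega

theorem big_emb2 {G H : MG} (f : Emb G H) (v : G.V) (S : Finset G.E) (T : Finset H.E)
    (h : ∀ e, e ∈ T ↔ ∃ a ∈ S, f.fE a = e) :
    ∑ e ∈ T, dd (H.ends e) (f.fV v) = ∑ e ∈ S, dd (G.ends e) v := by
  rw [← big_emb f]
  congr 1
  ext e
  rw [h, mem_image]

def gk (k : ℕ) : MG := sub (Gk k) (Xk k)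

theorem mem_gk (k : ℕ) : Mem (gk k) := mem_sub ⟨_, _, dat_k k⟩

theorem big_gk (k : ℕ) : Big (gk k) (2 * k + 4) := by
  have h0 : ∃ e ∈ Xk k, ((0, 0) : ℕ × ℕ) ∈ (Gk k).ends e :=
    ⟨(0, 0), by show 0 < _; omega, mem_ends.2 ⟨rfl, Or.inl (by simp)⟩⟩
  let f : Emb (gk k) (Gk k) := subEmb (Gk k) (Xk k)
  let z : (gk k).V := ⟨(0, 0), h0⟩
  refine ⟨z, (Tk k 0).preimage f.fE f.injE.injOn, ?_⟩
  rw [← big_emb2 f z _ (Tk k 0) (by
    intro e
    simp only [mem_preimage]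
    constructor
    · intro he
      exact ⟨⟨e, ((dat_k k).cover e).2 ⟨0, he⟩⟩, he, rfl⟩
    · rintro ⟨a, ha, rfl⟩; exact ha)]
  have h2 : ∀ e ∈ Tk k 0, dd ((Gk k).ends e) (f.fV z) = 2 := by
    intro e he
    have h3 := (mem_Tk.1 he).1
    show dd s((e.1, min (e.2 - 1) (nn k e.1)), (e.1, min e.2 (nn k e.1))) ((0, 0) : ℕ × ℕ) = 2
    rw [h3, dd_mk]
    simp [nn]
  rw [sum_congr rfl h2, sum_const, card_Tk, smul_eq_mul]
  omega

theorem not_big_gk (k : ℕ) : ¬ Big (gk k) (2 * k + 5) := by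
  rintro ⟨v, S, h⟩
  let f : Emb (gk k) (Gk k) := subEmb (Gk k) (Xk k)
  rw [← big_emb2 f v S (S.image f.fE) (fun e => mem_image)] at h
  set x : ℕ × ℕ := f.fV v
  have h1 : ∑ e ∈ S.image f.fE, dd ((Gk k).ends e) x ≤
      ∑ e ∈ (range (k + 2)).image (fun j => ((x.1, x.2 + j) : ℕ × ℕ)), dd ((Gk k).ends e) x := by
    apply sum_le_sum_of_ne_zero
    intro e he hne
    have h2 : x ∈ (Gk k).ends e := by
      by_contra hc
      exact hne (dd_zero hc)
    obtain ⟨a, -, rfl⟩ := mem_image.1 he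
    have h3 : (f.fE a).2 < k + 2 + ((f.fE a).1 - 1) := a.2
    rw [mem_ends] at h2
    rw [mem_image]
    refine ⟨(f.fE a).2 - x.2, ?_, Prod.ext h2.1 ?_⟩
    · have h4 := h2.2
      rw [mem_range]
      unfold nn at h4
      split_ifs at h4 <;> omega
    · have h4 := h2.2
      simp only
      unfold nn at h4
      split_ifs at h4 <;> omega
  have h2 : ∑ e ∈ (range (k + 2)).image (fun j => ((x.1, x.2 + j) : ℕ × ℕ)),
      dd ((Gk k).ends e) x ≤ ((range (k + 2)).image (fun j => ((x.1, x.2 + j) : ℕ × ℕ))).card • 2 :=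
    sum_le_card_nsmul _ _ _ (fun e _ => dd_le _ _)
  have h3 := card_image_le (s := range (k + 2)) (f := fun j => ((x.1, x.2 + j) : ℕ × ℕ))
  rw [card_range] at h3
  rw [smul_eq_mul] at h2
  omega

theorem not_eqv {i j : ℕ} (h : i < j) : ¬ Relation.EqvGen Homeo (gk i) (gk j) := by
  intro he
  apply not_big_gk i
  rw [eqv_inv he _ (by omega)]
  obtain ⟨v, S, h2⟩ := big_gk j
  exact ⟨v, S, by omega⟩

end Pool.Agent.H.MP_221c76_co
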