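import Mathlib

set_option autoImplicit false

namespace Pool.Agent.H.MP_221c76_co

/-- a graph with loops and multiple edges allowed, vertex and edge sets arbitrary -/
structure MG where
  V : Type
  E : Type
  ends : E → Sym2 V

/-- an isomorphism of `G` onto a subgraph of `H` -/
structure Emb (G H : MG) where
  fV : G.V → H.V
  fE : G.E → H.E
  injV : Function.Injective fV
  injE : Function.Injective fE
  comm : ∀ e, H.ends (fE e) = (G.ends e).map fV

/-- isomorphic graphs -/
def Iso (G H : MG) : Prop :=
  ∃ f : Emb G H, Function.Surjective f.fV ∧ Function.Surjective f.fE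

open Classical in
/-- replace the edge `e` with ends `u`, `v` by the path `u, none, v` -/
noncomputable def subdivide (G : MG) (e : G.E) (u v : G.V) : MG where
  V := Option G.V
  E := Option G.E
  ends := fun x => x.elim s(none, some v)
    (fun e' => if e' = e then s(some u, none) else (G.ends e').map some)

/-- `H` is isomorphic to `G` or arises from `G` by one subdivision -/
def Step (G H : MG) : Prop :=
  Iso G H ∨ ∃ (e : G.E) (u v : G.V), G.ends e = s(u, v) ∧ H = subdivide G e u v

/-- both graphs arise from a common graph by finitely many subdivisions -/
def Homeo (G H : MG) : Prop :=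
  ∃ K : MG, Relation.ReflTransGen Step K G ∧ Relation.ReflTransGen Step K H

/-- edge sets of the subgraphs of `H` isomorphic to a member of `P` -/
def circuits (P : Set MG) (H : MG) : Set (Set H.E) :=
  {C | ∃ G ∈ P, ∃ f : Emb G H, C = Set.range f.fE}

end Pool.Agent.H.MP_221c76_co
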